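import Mathlib
import Pool.Agent.Helper669.Forcing

/-!
# Ideals on `ω` and agreement of functions, in the forcing language
-/

set_option autoImplicit false

namespace Pool.Agent.V11242.SN

open Cardinal Pool.Agent.Helper669.Forcing

section Forcing

variable {P : Type} [Preorder P]

/-- The functions `x` and `y` have the same value at `n`. -/
def Agree (x y : ℕ → ℕ → Set P) (n : ℕ) : Set P :=
  fex fun j => fand (meets (x n j)) (meets (y n j))

/-- The set of all `n` with `Z n` belongs to the ideal on `ω` which is generated by the finite sets
and the sets `a k`: with finitely many exceptions its elements belong to the union of finitely many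
sets `a k`. -/
def InIdeal {K : Type} (a : K → ℕ → Set P) (Z : ℕ → Set P) : Set P :=
  fex fun F : Finset K => fex fun N : ℕ => fall fun n => fall fun _ : N ≤ n =>
    fimp (Z n) (fex fun k => fex fun _ : k ∈ F => meets (a k n))

variable (P) in
/-- There is a one-to-one function from `Ξ` to the set of all functions from `ω` to `ω`. -/
def ContinuumGe (Ξ : Type) : Set P :=
  fex fun e : Ξ → ℕ → ℕ → Set P => fand (fall fun i => IsFun (e i))
    (fall fun i => fall fun j => fall fun _ : i ≠ j => fnot (SameReal (e i) (e j)))

variable (P) in
/-- There is an ideal on `ω` (generated by the finite sets and sets `a k`, `k ∈ K`) and a family `s`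
of functions, indexed by `L`, such that every function agrees with some `s l` on a set which does
not belong to the ideal; but for every family `t` of functions, indexed by one of the sets `M i`,
there is a function `x` such that for all `l`, the set of the points at which `x` and `t l` agree
belongs to the ideal. -/
def Level (L K : Type) {Y : Type} (M : Y → Type) : Set P :=
  fex fun a : K → ℕ → Set P => fex fun s : L → ℕ → ℕ → Set P =>
    fand (fall fun l => IsFun (s l)) (fand
      (fall fun x : ℕ → ℕ → Set P =>
        fimp (IsFun x) (fex fun l => fnot (InIdeal a (Agree x (s l)))))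
      (fall fun i : Y => fall fun t : M i → ℕ → ℕ → Set P => fimp (fall fun l => IsFun (t l))
        (fex fun x : ℕ → ℕ → Set P =>
          fand (IsFun x) (fall fun l => InIdeal a (Agree x (t l))))))

variable (P) in
/-- The sentence `ChiFor Ξ L K`, in the forcing language. -/
def ChiHolds (Ξ : Type) [LinearOrder Ξ] (L K : Ξ → Type) : Set P :=
  fand (ContinuumLe P Ξ) (fand (ContinuumGe P Ξ)
    (fall fun ξ => Level P (L ξ) (K ξ) fun η : {η // η < ξ} => L η.1))

end Forcing

/-! ### The same sentence, outside of the forcing language -/

/-- The set of all `n` with `Z n` belongs to the ideal on `ω` which is generated by the finite sets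
and the sets `a k`. -/
def InIdealOf {K : Type} (a : K → ℕ → Prop) (Z : ℕ → Prop) : Prop :=
  ∃ (F : Finset K) (N : ℕ), ∀ n, N ≤ n → Z n → ∃ k ∈ F, a k n

/-- There is an ideal on `ω` (generated by the finite sets and sets `a k`, `k ∈ K`) and a family `s`
of functions, indexed by `L`, such that every function agrees with some `s l` on a set which does
not belong to the ideal; but for every family `t` of functions, indexed by one of the sets `M i`,
there is a function `x` such that for all `l`, the set of the points at which `x` and `t l` agree
belongs to the ideal. -/
def LevelFor (L K : Type) {Y : Type} (M : Y → Type) : Prop :=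
  ∃ (a : K → ℕ → Prop) (s : L → ℕ → ℕ),
    (∀ x : ℕ → ℕ, ∃ l, ¬ InIdealOf a fun n => x n = s l n) ∧
    ∀ (i : Y) (t : M i → ℕ → ℕ), ∃ x : ℕ → ℕ, ∀ l, InIdealOf a fun n => x n = t l n

/-- `Ξ` is of the cardinality of the continuum, and for every `ξ` in `Ξ` there is an ideal on `ω`
such that some family of functions indexed by `L ξ`, but no family indexed by one of the sets `L η`,
`η < ξ`, contains for every function a function which agrees with it on a set outside of the
ideal. -/
def ChiFor (Ξ : Type) [LinearOrder Ξ] (L K : Ξ → Type) : Prop :=
  (∃ e : Ξ → ℕ → ℕ, Function.Surjective e) ∧ (∃ e : Ξ → ℕ → ℕ, Function.Injective e) ∧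
    ∀ ξ, LevelFor (L ξ) (K ξ) fun η : {η // η < ξ} => L η.1

end Pool.Agent.V11242.SN
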