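import Mathlib
import Pool.Agent.V11242.SN.Defs

/-!
# One ideal with continuum many slalom numbers
-/

set_option autoImplicit false
set_option linter.unusedSectionVars false

namespace Pool.Agent.V11242.SN

open Cardinal Set

/-- `J` is a proper ideal on `ω` which contains all finite sets. -/
def IsIdeal (J : Set (Set ℕ)) : Prop :=
  Set.univ ∉ J ∧ (∀ A ∈ J, ∀ B, B ⊆ A → B ∈ J) ∧ (∀ A ∈ J, ∀ B ∈ J, A ∪ B ∈ J) ∧
    ∀ A : Set ℕ, A.Finite → A ∈ J

/-- The `h`-slaloms. -/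
def Slaloms (h : ℕ → ℕ) : Set (ℕ → Finset ℕ) := {s | ∀ n, (s n).card ≤ h n}

/-- The cardinalities of the families as in the definition of `𝔰𝔩_t(h, J)`. -/
def FamT (h : ℕ → ℕ) (J : Set (Set ℕ)) : Set Cardinal.{0} :=
  {c | ∃ S ⊆ Slaloms h, (∀ x : ℕ → ℕ, ∃ s ∈ S, {n | x n ∉ s n} ∈ J) ∧ #S = c}

/-- The cardinalities of the families as in the definition of `𝔰𝔩_e(h, J)`. -/
def FamE (h : ℕ → ℕ) (J : Set (Set ℕ)) : Set Cardinal.{0} :=
  {c | ∃ S ⊆ Slaloms h, (∀ x : ℕ → ℕ, ∃ s ∈ S, {n | x n ∈ s n} ∉ J) ∧ #S = c}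

/-- The cardinalities of the families as in the definition of `𝔰𝔩_t^⊥(h, J)`. -/
def DualT (h : ℕ → ℕ) (J : Set (Set ℕ)) : Set Cardinal.{0} :=
  {c | ∃ F : Set (ℕ → ℕ), (∀ s ∈ Slaloms h, ∃ x ∈ F, {n | x n ∉ s n} ∉ J) ∧ #F = c}

/-- The cardinalities of the families as in the definition of `𝔰𝔩_e^⊥(h, J)`. -/
def DualE (h : ℕ → ℕ) (J : Set (Set ℕ)) : Set Cardinal.{0} :=
  {c | ∃ F : Set (ℕ → ℕ), (∀ s ∈ Slaloms h, ∃ x ∈ F, {n | x n ∈ s n} ∈ J) ∧ #F = c}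

/-- The set `V_J` of the (well-defined) values of the four slalom numbers, for fixed `J`: the
cardinals which are the least element of one of the four sets, for some `h`. -/
def Values (J : Set (Set ℕ)) : Set Cardinal.{0} :=
  {c | ∃ h : ℕ → ℕ, IsLeast (FamT h J) c ∨ IsLeast (FamE h J) c ∨ IsLeast (DualT h J) c ∨
    IsLeast (DualE h J) c}

theorem values_le (J : Set (Set ℕ)) : #(Values J) ≤ 𝔠 := by
  let f : (ℕ → ℕ) × Fin 4 → Cardinal.{0} := fun x =>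
    match x.2 with
    | 0 => sInf (FamT x.1 J)
    | 1 => sInf (FamE x.1 J)
    | 2 => sInf (DualT x.1 J)
    | 3 => sInf (DualE x.1 J)
  have h1 : Values J ⊆ range f := by
    rintro c ⟨h, hc | hc | hc | hc⟩
    · exact ⟨(h, 0), hc.csInf_eq⟩
    · exact ⟨(h, 1), hc.csInf_eq⟩
    · exact ⟨(h, 2), hc.csInf_eq⟩
    · exact ⟨(h, 3), hc.csInf_eq⟩
  have h2 : #((ℕ → ℕ) × Fin 4) ≤ 𝔠 := by
    rw [mk_prod]
    simp only [Cardinal.lift_id]
    have h3 : #(ℕ → ℕ) = 𝔠 := by simp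
    rw [h3]
    refine (mul_le_mul' le_rfl ((mk_le_aleph0 (α := Fin 4)).trans aleph0_le_continuum)).trans ?_
    exact (mul_eq_self aleph0_le_continuum).le
  have h3 := mk_range_le_lift (f := f)
  have h4 : Cardinal.lift.{1} #((ℕ → ℕ) × Fin 4) ≤ Cardinal.lift.{1} 𝔠 := lift_le.2 h2
  rw [lift_continuum] at h4
  refine (mk_le_mk_of_subset h1).trans ?_
  have h5 := h3.trans h4
  simpa using h5

/-! ### The almost disjoint family -/

/-- the code of the initial segment of length `n` -/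
def cd (e : ℕ → ℕ) (n : ℕ) : ℕ := Encodable.encode ((List.range n).map e)

theorem cd_eq {e e' : ℕ → ℕ} {n m : ℕ} (h : cd e n = cd e' m) : n = m ∧ ∀ i < n, e i = e' i := by
  have h1 : (List.range n).map e = (List.range m).map e' := Encodable.encode_injective h
  have h2 : n = m := by
    have := congrArg List.length h1
    simpa using this
  subst h2
  refine ⟨rfl, fun i hi => ?_⟩
  have := congrArg (fun l : List ℕ => l.getD i 0) h1
  simpa [hi] using this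

theorem cd_injective (e : ℕ → ℕ) : Function.Injective (cd e) := fun _ _ h => (cd_eq h).1

section Glue

variable {Ξ : Type} [LinearOrder Ξ] {L K : Ξ → Type}

variable (e : Ξ → ℕ → ℕ) (a : (ξ : Ξ) → K ξ → ℕ → Prop)

/-- the ideal with index `ξ` -/
def Id (ξ : Ξ) : Set (Set ℕ) := {Z | InIdealOf (a ξ) fun n => n ∈ Z}

/-- the glued ideal -/
def JJ : Set (Set ℕ) := {A | ∀ ξ, {n | cd (e ξ) n ∈ A} ∈ Id a ξ}

variable {e a}

theorem Id_mono {ξ : Ξ} {A B : Set ℕ} (hA : A ∈ Id a ξ) (h : B ⊆ A) : B ∈ Id a ξ := by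
  obtain ⟨F, N, hF⟩ := hA
  exact ⟨F, N, fun n hn hB => hF n hn (h hB)⟩

theorem Id_union {ξ : Ξ} {A B : Set ℕ} (hA : A ∈ Id a ξ) (hB : B ∈ Id a ξ) :
    A ∪ B ∈ Id a ξ := by
  classical
  obtain ⟨F, N, hF⟩ := hA
  obtain ⟨F', N', hF'⟩ := hB
  refine ⟨F ∪ F', max N N', fun n hn hAB => ?_⟩
  rcases hAB with h | h
  · obtain ⟨k, hk, hk'⟩ := hF n ((le_max_left _ _).trans hn) h
    exact ⟨k, Finset.mem_union_left _ hk, hk'⟩
  · obtain ⟨k, hk, hk'⟩ := hF' n ((le_max_right _ _).trans hn) h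
    exact ⟨k, Finset.mem_union_right _ hk, hk'⟩

theorem Id_finite {ξ : Ξ} {A : Set ℕ} (hA : A.Finite) : A ∈ Id a ξ := by
  obtain ⟨b, hb⟩ := hA.bddAbove
  refine ⟨∅, b + 1, fun n hn h => ?_⟩
  have := hb h
  omega

theorem isIdeal_JJ (hne : Nonempty Ξ) (hproper : ∀ ξ, (Set.univ : Set ℕ) ∉ Id a ξ) :
    IsIdeal (JJ e a) := by
  refine ⟨fun h => ?_, fun A hA B hB ξ => Id_mono (hA ξ) fun n hn => hB hn,
    fun A hA B hB ξ => ?_, fun A hA ξ => Id_finite ?_⟩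
  · obtain ⟨ξ⟩ := hne
    exact hproper ξ (Id_mono (h ξ) fun n _ => mem_univ _)
  · exact Id_mono (Id_union (hA ξ) (hB ξ)) fun n hn => hn
  · exact hA.preimage (cd_injective _).injOn

/-- a set which meets the `ζ`-th set of the almost disjoint family in a finite set only -/
theorem finite_inter (he : Function.Injective e) {ξ ζ : Ξ} (hne : ζ ≠ ξ) :
    {n | cd (e ζ) n ∈ range (cd (e ξ))}.Finite := by
  have h1 : e ζ ≠ e ξ := fun h => hne (he h)
  obtain ⟨i, hi⟩ := Function.ne_iff.1 h1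
  refine (Set.finite_Iic i).subset fun n hn => ?_
  obtain ⟨m, hm⟩ := hn
  obtain ⟨h2, h3⟩ := cd_eq hm.symm
  by_contra hlt
  exact hi (h3 i (not_le.1 hlt))

open Classical in
/-- the height with index `ξ` -/
noncomputable def hh (e : Ξ → ℕ → ℕ) (ξ : Ξ) (m : ℕ) : ℕ := if m ∈ range (cd (e ξ)) then 1 else 0

open Classical in
/-- the slalom given by `s` -/
noncomputable def sl (e : Ξ → ℕ → ℕ) (ξ : Ξ) (s : ℕ → ℕ) (m : ℕ) : Finset ℕ :=
  if h : ∃ n, cd (e ξ) n = m then {s h.choose} else ∅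

theorem sl_cd (ξ : Ξ) (s : ℕ → ℕ) (n : ℕ) : sl e ξ s (cd (e ξ) n) = {s n} := by
  have h : ∃ n', cd (e ξ) n' = cd (e ξ) n := ⟨n, rfl⟩
  unfold sl
  rw [dif_pos h]
  have h1 : h.choose = n := cd_injective _ h.choose_spec
  rw [h1]

theorem sl_mem (ξ : Ξ) (s : ℕ → ℕ) : sl e ξ s ∈ Slaloms (hh e ξ) := by
  intro m
  unfold sl hh
  by_cases h : ∃ n, cd (e ξ) n = m
  · have h' : m ∈ range (cd (e ξ)) := h
    rw [dif_pos h, if_pos h']
    simp
  · have h' : m ∉ range (cd (e ξ)) := h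
    rw [dif_neg h, if_neg h']
    simp

theorem upper {ξ : Ξ} {s : L ξ → ℕ → ℕ}
    (hs : ∀ x : ℕ → ℕ, ∃ l, ¬ InIdealOf (a ξ) fun n => x n = s l n) :
    #(range fun l => sl e ξ (s l)) ∈ FamE (hh e ξ) (JJ e a) := by
  refine ⟨_, ?_, fun x => ?_, rfl⟩
  · rintro _ ⟨l, rfl⟩
    exact sl_mem ξ _
  · obtain ⟨l, hl⟩ := hs fun n => x (cd (e ξ) n)
    refine ⟨_, ⟨l, rfl⟩, fun hJ => hl ?_⟩
    obtain ⟨F, N, hF⟩ := hJ ξ
    refine ⟨F, N, fun n hn hx => hF n hn ?_⟩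
    show x (cd (e ξ) n) ∈ sl e ξ (s l) (cd (e ξ) n)
    rw [sl_cd, Finset.mem_singleton]
    exact hx

theorem lower (he : Function.Injective e) {ξ η : Ξ}
    (ht : ∀ t : L η → ℕ → ℕ, ∃ x : ℕ → ℕ, ∀ l, InIdealOf (a ξ) fun n => x n = t l n)
    {c : Cardinal.{0}} (hc : c ∈ FamE (hh e ξ) (JJ e a)) : #(L η) < c := by
  classical
  obtain ⟨S, hS1, hS2, rfl⟩ := hc
  rw [← not_le]
  rintro ⟨g⟩
  obtain ⟨s0, hs0, -⟩ := hS2 fun _ => 0
  have hne : Nonempty S := ⟨⟨s0, hs0⟩⟩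
  let σ : L η → ℕ → Finset ℕ := fun l => (Function.invFun g l).1
  have hσ : ∀ l, σ l ∈ S := fun l => (Function.invFun g l).2
  have hval : ∀ (l : L η) (n : ℕ), ∃ v, ∀ j ∈ σ l (cd (e ξ) n), j = v := by
    intro l n
    have h1 : (σ l (cd (e ξ) n)).card ≤ 1 := by
      refine (hS1 (hσ l) _).trans ?_
      unfold hh
      split_ifs <;> simp
    rcases (σ l (cd (e ξ) n)).eq_empty_or_nonempty with h | ⟨v, hv⟩
    · exact ⟨0, fun j hj => absurd hj (by simp [h])⟩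
    · exact ⟨v, fun j hj => Finset.card_le_one.1 h1 j hj v hv⟩
  choose t ht' using hval
  obtain ⟨x', hx'⟩ := ht t
  let x : ℕ → ℕ := fun m => if h : ∃ n, cd (e ξ) n = m then x' h.choose else 0
  have hx : ∀ n, x (cd (e ξ) n) = x' n := by
    intro n
    have h : ∃ n', cd (e ξ) n' = cd (e ξ) n := ⟨n, rfl⟩
    have h1 : x (cd (e ξ) n) = x' h.choose := dif_pos h
    have h2 : h.choose = n := cd_injective _ h.choose_spec
    rw [h1, h2]
  obtain ⟨s, hs, hsJ⟩ := hS2 x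
  have h1 : σ (g ⟨s, hs⟩) = s := by
    show (Function.invFun g (g ⟨s, hs⟩)).1 = s
    rw [Function.leftInverse_invFun g.injective]
  apply hsJ
  intro ζ
  by_cases hζ : ζ = ξ
  · subst hζ
    obtain ⟨F, N, hF⟩ := hx' (g ⟨s, hs⟩)
    refine ⟨F, N, fun n hn hmem => hF n hn ?_⟩
    have h2 : x (cd (e ζ) n) ∈ s (cd (e ζ) n) := hmem
    rw [← h1] at h2
    show x' n = t (g ⟨s, hs⟩) n
    rw [← hx]
    exact ht' _ _ _ h2
  · refine Id_finite ((finite_inter he hζ).subset fun n hn => ?_)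
    by_contra hnot
    have h2 : x (cd (e ζ) n) ∈ s (cd (e ζ) n) := hn
    have h3 : (s (cd (e ζ) n)).card ≤ hh e ξ (cd (e ζ) n) := hS1 hs _
    have h4 : hh e ξ (cd (e ζ) n) = 0 := if_neg hnot
    rw [h4] at h3
    have h5 := Finset.card_eq_zero.1 (Nat.le_zero.1 h3)
    rw [h5] at h2
    exact absurd h2 (Finset.notMem_empty _)

end Glue

/-- The main result: some ideal has continuum many slalom numbers. -/
theorem exists_ideal {Ξ : Type} [LinearOrder Ξ] {L K : Ξ → Type} (h : ChiFor Ξ L K) :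
    ∃ J : Set (Set ℕ), IsIdeal J ∧ #(Values J) = 𝔠 := by
  classical
  obtain ⟨⟨e0, he0⟩, ⟨e, he⟩, hlev⟩ := h
  choose a s hs ht using hlev
  have hne : Nonempty Ξ := by
    obtain ⟨ξ, -⟩ := he0 fun _ => 0
    exact ⟨ξ⟩
  refine ⟨JJ e a, isIdeal_JJ hne fun ξ hu => ?_, le_antisymm (values_le _) ?_⟩
  · obtain ⟨l, hl⟩ := hs ξ fun _ => 0
    obtain ⟨F, N, hF⟩ := hu
    exact hl ⟨F, N, fun n hn _ => hF n hn (mem_univ _)⟩
  · have hleast : ∀ ξ, IsLeast (FamE (hh e ξ) (JJ e a)) (sInf (FamE (hh e ξ) (JJ e a))) :=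
      fun ξ => ⟨csInf_mem ⟨_, upper (hs ξ)⟩, fun _ h => csInf_le' h⟩
    have hmono : StrictMono fun ξ => sInf (FamE (hh e ξ) (JJ e a)) := by
      intro η ξ hlt
      have h1 : sInf (FamE (hh e η) (JJ e a)) ≤ #(L η) :=
        (csInf_le' (upper (hs η))).trans mk_range_le
      have h2 : #(L η) < sInf (FamE (hh e ξ) (JJ e a)) :=
        lower he (fun t => ht ξ ⟨η, hlt⟩ t) (hleast ξ).1
      exact h1.trans_lt h2
    have h3 : Function.Injective fun ξ : Ξ =>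
        (⟨sInf (FamE (hh e ξ) (JJ e a)), hh e ξ, Or.inr (Or.inl (hleast ξ))⟩ :
          Values (JJ e a)) := by
      intro ξ η h
      exact hmono.injective (congrArg Subtype.val h)
    have h4 := lift_mk_le_lift_mk_of_injective h3
    have h5 : 𝔠 ≤ #Ξ := by
      have h6 := mk_le_of_surjective he0
      simpa using h6
    have h7 : Cardinal.lift.{1} 𝔠 ≤ Cardinal.lift.{1} #Ξ := lift_le.2 h5
    rw [lift_continuum] at h7
    have h8 := h7.trans h4
    simpa using h8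

end Pool.Agent.V11242.SN
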