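import Mathlib
import Pool.Agent.H458R4.Cohen2
import Pool.Agent.V11242.CL.Cohen
import Pool.Agent.V11242.SN.Defs

/-!
# Cohen reals and ideals on `ω`
-/

set_option autoImplicit false
set_option linter.unusedSectionVars false

namespace Pool.Agent.V11242.SN

open Cardinal Set Pool.Agent.Helper669.Forcing Pool.Agent.H458R4.Cohen Pool.Agent.V11242.CL

variable {ι : Type}

section Gen

variable {P : Type} [Preorder P]

theorem down_Agree (x y : ℕ → ℕ → Set P) (n : ℕ) : Down (Agree x y n) := down_fex _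

theorem down_InIdeal {K : Type} (a : K → ℕ → Set P) (Z : ℕ → Set P) : Down (InIdeal a Z) :=
  down_fex _

theorem agree_of {x y : ℕ → ℕ → Set P} {n j : ℕ} {p : P} (hx : p ∈ meets (x n j))
    (hy : p ∈ meets (y n j)) : p ∈ Agree x y n :=
  mem_fex_of_mem j (down_fand (down_meets _) (down_meets _)) ⟨hx, hy⟩

end Gen

/-- the coordinates mentioned in a countable name -/
def supp (c : ℕ → ℕ → Option (Fn ι × ℕ)) : Set ι :=
  {i | ∃ n j q m, c n j = some (q, m) ∧ ∃ y ∈ q.g, y.1.1 = i}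

theorem supp_countable (c : ℕ → ℕ → Option (Fn ι × ℕ)) : (supp c).Countable := by
  have h1 : supp c ⊆ ⋃ n : ℕ, ⋃ j : ℕ, ⋃ z : Fn ι × ℕ, ⋃ _ : c n j = some z,
      (fun y : (ι × ℕ) × Bool => y.1.1) '' (z.1.g : Set ((ι × ℕ) × Bool)) := by
    rintro i ⟨n, j, q, m, h, y, hy, rfl⟩
    exact mem_iUnion.2 ⟨n, mem_iUnion.2 ⟨j, mem_iUnion.2 ⟨(q, m), mem_iUnion.2 ⟨h,
      ⟨y, Finset.mem_coe.2 hy, rfl⟩⟩⟩⟩⟩
  refine Set.Countable.mono h1 (countable_iUnion fun n => countable_iUnion fun j => ?_)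
  rcases h : c n j with _ | z
  · simp
  · have : (⋃ z' : Fn ι × ℕ, ⋃ _ : (some z : Option (Fn ι × ℕ)) = some z',
        (fun y : (ι × ℕ) × Bool => y.1.1) '' (z'.1.g : Set ((ι × ℕ) × Bool))) =
        (fun y : (ι × ℕ) × Bool => y.1.1) '' (z.1.g : Set ((ι × ℕ) × Bool)) := by
      ext i
      simp only [mem_iUnion, Option.some.injEq, exists_prop]
      constructor
      · rintro ⟨_, rfl, h⟩
        exact h
      · intro h
        exact ⟨z, rfl, h⟩
    rw [this]
    exact (Finset.countable_toSet _).image _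

/-- deciding one value of a countable name -/
theorem decide_nm {c : ℕ → ℕ → Option (Fn ι × ℕ)} (hc : ∀ p, p ∈ IsFun (nm c)) (r : Fn ι)
    (n : ℕ) : ∃ t ≤ r, (∃ w, t ∈ meets (nm c n w)) ∧ ∀ y ∈ t.g, y ∈ r.g ∨ y.1.1 ∈ supp c := by
  obtain ⟨r1, h1, w, hw⟩ := IsFun.total (hc r) n
  obtain ⟨r2, h2, s, hs, h3⟩ := hw r1 le_rfl
  obtain ⟨t, ht1, ht2, ht3⟩ := exists_union (a := s) (r := r) ⟨r2, h3, h2.trans h1⟩
  refine ⟨t, ht2, ⟨w, meets_of_le hs ht1⟩, fun y hy => ?_⟩
  rcases ht3 y hy with h | h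
  · obtain ⟨j, hj⟩ := hs
    exact Or.inr ⟨n, j, s, w, hj, y, h, rfl⟩
  · exact Or.inl h

/-- the condition does not mention the row `n` of the coordinate `i` -/
def Free (t : Fn ι) (i : ι) (n : ℕ) : Prop := ∀ k v, ((i, Nat.pair n k), v) ∉ t.g

/-- prescribing one value -/
theorem prescribe_one {q : Fn ι} {i : ι} {n : ℕ} (hq : Free q i n) (v : ℕ) :
    ∃ t ≤ q, t ∈ X i n v ∧ ∀ y ∈ t.g, y ∈ q.g ∨ y.1.1 = i := by
  classical
  let G : Finset ((ι × ℕ) × Bool) :=
    (Finset.range (v + 1)).image fun j => ((i, Nat.pair n j), decide (j = v))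
  have hG : ∀ a b, (a, b) ∈ G ↔ ∃ j ≤ v, a = (i, Nat.pair n j) ∧ b = decide (j = v) := by
    intro a b
    simp only [G, Finset.mem_image, Finset.mem_range, Prod.mk.injEq, Nat.lt_succ_iff]
    constructor
    · rintro ⟨j, h3, h4, h5⟩
      exact ⟨j, h3, h4.symm, h5.symm⟩
    · rintro ⟨j, h3, h4, h5⟩
      exact ⟨j, h3, h4.symm, h5.symm⟩
  refine ⟨⟨q.g ∪ G, fun a b b' hb hb' => ?_⟩, Finset.subset_union_left, ⟨?_, ?_⟩, fun y hy => ?_⟩
  · rcases Finset.mem_union.1 hb with hb | hb <;> rcases Finset.mem_union.1 hb' with hb' | hb'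
    · exact q.fn a b b' hb hb'
    · obtain ⟨j, _, h4, _⟩ := (hG a b').1 hb'
      rw [h4] at hb
      exact absurd hb (hq j b)
    · obtain ⟨j, _, h4, _⟩ := (hG a b).1 hb
      rw [h4] at hb'
      exact absurd hb' (hq j b')
    · obtain ⟨j, _, h4, h5⟩ := (hG a b).1 hb
      obtain ⟨j', _, h4', h5'⟩ := (hG a b').1 hb'
      rw [h4] at h4'
      simp only [Prod.mk.injEq, Nat.pair_eq_pair, true_and] at h4'
      rw [h5, h5', h4']
  · exact Finset.mem_union_right _ ((hG _ _).2 ⟨v, le_rfl, rfl, by simp⟩)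
  · intro j hj
    exact Finset.mem_union_right _ ((hG _ _).2 ⟨j, hj.le, rfl, by simp [hj.ne]⟩)
  · rcases Finset.mem_union.1 hy with h | h
    · exact Or.inl h
    · obtain ⟨j, _, h4, _⟩ := (hG y.1 y.2).1 h
      exact Or.inr (by rw [h4])

/-! ### One level -/

section OneLevel

variable {L : Type} [LinearOrder L] (co : L × Bool → ι) (Low : L → Set ι)

/-- the indices of the generators of the ideal -/
def KK : Type :=
  {k : L × (ℕ → ℕ → Option (Fn ι × ℕ)) // supp k.2 ⊆ Low k.1 ∧ ∀ p, p ∈ IsFun (nm k.2)}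

/-- the generators of the ideal -/
def gen (k : KK Low) (n : ℕ) : Set (Fn ι) := Agree (X (co (k.1.1, true))) (nm k.1.2) n

variable {co Low}

/-- deciding finitely many countable names -/
theorem decide_names (F : Finset (KK Low)) (β : L) (hF : ∀ k ∈ F, k.1.1 = β) (r : Fn ι) (n : ℕ) :
    ∃ t ≤ r, (∀ k ∈ F, ∃ w, t ∈ meets (nm k.1.2 n w)) ∧ ∀ y ∈ t.g, y ∈ r.g ∨ y.1.1 ∈ Low β := by
  classical
  induction F using Finset.induction_on with
  | empty => exact ⟨r, le_rfl, fun k hk => absurd hk (Finset.notMem_empty _), fun y hy => Or.inl hy⟩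
  | insert k F _ ih =>
    obtain ⟨t, h1, h2, h3⟩ := ih fun k' hk' => hF k' (Finset.mem_insert_of_mem hk')
    obtain ⟨t', h4, ⟨w, hw⟩, h6⟩ := decide_nm k.2.2 t n
    refine ⟨t', h4.trans h1, fun k' hk' => ?_, fun y hy => ?_⟩
    · rcases Finset.mem_insert.1 hk' with rfl | hk'
      · exact ⟨w, hw⟩
      · obtain ⟨w', hw'⟩ := h2 k' hk'
        exact ⟨w', down_meets _ _ hw' _ h4⟩
    · rcases h6 y hy with h | h
      · exact h3 y h
      · refine Or.inr ?_
        have := k.2.1 h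
        rwa [hF k (Finset.mem_insert_self k F)] at this

theorem notGen {k : KK Low} {n v w : ℕ} {t : Fn ι} (hv : t ∈ X (co (k.1.1, true)) n v)
    (hw : t ∈ meets (nm k.1.2 n w)) (hne : v ≠ w) : t ∈ fnot (meets (gen co Low k n)) := by
  intro u hu hu'
  obtain ⟨u1, h1, h2⟩ := exists_of_meets (down_Agree _ _ _) hu'
  obtain ⟨u2, h3, j, h4⟩ := mem_fex.1 h2 u1 le_rfl
  have hle : u2 ≤ t := h3.trans (h1.trans hu)
  have h5 := IsFun.unique (isFun_X (co (k.1.1, true)) u2) h4.1
    (down_meets _ _ (meets_of_mem hv) _ hle)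
  have h6 := IsFun.unique (k.2.2 u2) h4.2 (down_meets _ _ hw _ hle)
  exact hne (h5.symm.trans h6)

/-- The main step. -/
theorem main_step (hco : Function.Injective co)
    (hlow : ∀ α β b, co (β, b) ∈ Low α → β < α) {α : L}
    {cx : ℕ → ℕ → Option (Fn ι × ℕ)} (hcx : ∀ p, p ∈ IsFun (nm cx)) (hs : supp cx ⊆ Low α)
    (F : Finset (KK Low)) {r : Fn ι} {n : ℕ} (hr : ∀ γ b, Free r (co (γ, b)) n) :
    ∃ t ≤ r, (∀ k ∈ F, t ∈ fnot (meets (gen co Low k n))) ∧
      t ∈ Agree (nm cx) (X (co (α, false))) n := by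
  classical
  have key : ∀ A : Finset L, ∃ t ≤ r, (∀ β ∈ A, (∀ k ∈ F, k.1.1 = β →
      t ∈ fnot (meets (gen co Low k n))) ∧ (β = α → t ∈ Agree (nm cx) (X (co (α, false))) n)) ∧
      ∀ γ, (∀ β ∈ A, β < γ) → ∀ b, Free t (co (γ, b)) n := by
    intro A
    induction A using Finset.induction_on_max with
    | empty => exact ⟨r, le_rfl, fun β hβ => absurd hβ (Finset.notMem_empty _), fun γ _ b => hr γ b⟩
    | insert β A hA ih =>
      obtain ⟨t0, h1, h2, h3⟩ := ih
      obtain ⟨t1, h4, h5, h6⟩ := decide_names (F.filter fun k => k.1.1 = β) β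
        (fun k hk => (Finset.mem_filter.1 hk).2) t0 n
      -- deciding the value of `x`
      obtain ⟨t2, h7, h8, h9⟩ : ∃ t2 ≤ t1, (β = α → ∃ w, t2 ∈ meets (nm cx n w)) ∧
          ∀ y ∈ t2.g, y ∈ t0.g ∨ y.1.1 ∈ Low β := by
        by_cases hβ : β = α
        · obtain ⟨t2, h7, hw, h9⟩ := decide_nm hcx t1 n
          refine ⟨t2, h7, fun _ => hw, fun y hy => ?_⟩
          rcases h9 y hy with h | h
          · exact h6 y h
          · right
            rw [hβ]
            exact hs h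
        · exact ⟨t1, le_rfl, fun h => absurd h hβ, h6⟩
      have hfree : ∀ γ, β ≤ γ → ∀ b, Free t2 (co (γ, b)) n := by
        intro γ hγ b k v hmem
        rcases h9 _ hmem with h | h
        · exact h3 γ (fun β' hβ' => (hA β' hβ').trans_le hγ) b k v h
        · exact absurd (hlow β γ b h) (not_lt.2 hγ)
      -- a new value
      have hval : ∀ k : KK Low, ∃ w, k ∈ F.filter (fun k => k.1.1 = β) →
          t1 ∈ meets (nm k.1.2 n w) := by
        intro k
        by_cases hk : k ∈ F.filter fun k => k.1.1 = β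
        · obtain ⟨w, hw⟩ := h5 k hk
          exact ⟨w, fun _ => hw⟩
        · exact ⟨0, fun h => absurd h hk⟩
      choose w hw using hval
      let v : ℕ := (F.sup w) + 1
      have hv : ∀ k ∈ F, v ≠ w k := by
        intro k hk
        have := Finset.le_sup (f := w) hk
        omega
      obtain ⟨t3, h10, h11, h12⟩ := prescribe_one (hfree β le_rfl true) v
      have hfree3 : ∀ γ, β ≤ γ → ∀ b, co (γ, b) ≠ co (β, true) → Free t3 (co (γ, b)) n := by
        intro γ hγ b hne k u hmem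
        rcases h12 _ hmem with h | h
        · exact hfree γ hγ b k u h
        · exact hne h
      obtain ⟨t4, h13, h14, h15⟩ : ∃ t4 ≤ t3,
          (β = α → t4 ∈ Agree (nm cx) (X (co (α, false))) n) ∧
          ∀ y ∈ t4.g, y ∈ t3.g ∨ y.1.1 = co (β, false) := by
        by_cases hβ : β = α
        · obtain ⟨wx, hwx⟩ := h8 hβ
          obtain ⟨t4, h13, h14, h15⟩ := prescribe_one (hfree3 β le_rfl false (fun h => by
            have := hco h
            simp at this)) wx
          refine ⟨t4, h13, fun _ => ?_, h15⟩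
          rw [hβ] at h14
          exact agree_of (down_meets _ _ hwx _ (h13.trans h10)) (meets_of_mem h14)
        · exact ⟨t3, le_rfl, fun h => absurd h hβ, fun y hy => Or.inl hy⟩
      have hle0 : t4 ≤ t0 := h13.trans (h10.trans (h7.trans h4))
      refine ⟨t4, hle0.trans h1, fun β' hβ' => ?_, fun γ hγ b k u hmem => ?_⟩
      · rcases Finset.mem_insert.1 hβ' with rfl | hβ'
        · refine ⟨fun k hk hkβ => ?_, h14⟩
          have hkf : k ∈ F.filter fun k => k.1.1 = β' := Finset.mem_filter.2 ⟨hk, hkβ⟩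
          refine notGen (v := v) (w := w k) ?_ ?_ (hv k hk)
          · rw [hkβ]
            exact down_X _ _ _ _ h11 _ h13
          · exact down_meets _ _ (hw k hkf) _ (h13.trans (h10.trans h7))
        · refine ⟨fun k hk hkβ => down_fnot _ _ ((h2 β' hβ').1 k hk hkβ) _ hle0, fun h =>
            down_Agree _ _ _ _ ((h2 β' hβ').2 h) _ hle0⟩
      · have hβγ : β < γ := hγ β (Finset.mem_insert_self β A)
        rcases h15 _ hmem with h | h
        · exact hfree3 γ hβγ.le b (fun h' => by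
            have := hco h'
            simp only [Prod.mk.injEq] at this
            exact hβγ.ne' this.1) k u h
        · have := hco h
          simp only [Prod.mk.injEq] at this
          exact hβγ.ne' this.1
  obtain ⟨t, h1, h2, -⟩ := key (insert α (F.image fun k => k.1.1))
  exact ⟨t, h1, fun k hk => (h2 k.1.1 (Finset.mem_insert_of_mem
    (Finset.mem_image_of_mem _ hk))).1 k hk rfl, (h2 α (Finset.mem_insert_self _ _)).2 rfl⟩

/-- One level. -/
theorem level (hco : Function.Injective co) (hlow : ∀ α β b, co (β, b) ∈ Low α → β < α)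
    (hcov : ∀ S : Set ι, S.Countable → ∃ α, S ⊆ Low α) {Y : Type} {M : Y → Type}
    (hM : ∀ (i : Y) (S : M i → Set ι), (∀ l, (S l).Countable) → ∃ α, ∀ l, S l ⊆ Low α)
    (p : Fn ι) : p ∈ Level (Fn ι) L (KK Low) M := by
  classical
  refine mem_fex.2 fun p1 _ => ⟨p1, le_rfl, gen co Low, mem_fex.2 fun p2 _ => ⟨p2, le_rfl,
    fun l => X (co (l, false)), fun l => isFun_X _ _, fun x => ?_, fun i t => ?_⟩⟩
  · refine mem_fimp.2 fun q _ hx => ⟨q, le_rfl, ?_⟩
    obtain ⟨c, hc, hxc⟩ := exists_nm x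
    obtain ⟨α, hα⟩ := hcov (supp c) (supp_countable c)
    refine mem_fex_of_mem α (down_fnot _) fun r hr hr' => ?_
    obtain ⟨r1, h1, F, h2⟩ := mem_fex.1 hr' r le_rfl
    obtain ⟨r2, h3, N, h4⟩ := mem_fex.1 h2 r1 le_rfl
    obtain ⟨n, hn, hfree⟩ : ∃ n, N ≤ n ∧ ∀ i, Free r2 i n := by
      obtain ⟨m, hm⟩ := (r2.g.image fun x => (Nat.unpair x.1.2).1).finite_toSet.bddAbove
      refine ⟨max N (m + 1), le_max_left _ _, fun i k v hmem => ?_⟩
      have h5 := hm (Finset.mem_coe.2 (Finset.mem_image_of_mem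
        (fun x : (ι × ℕ) × Bool => (Nat.unpair x.1.2).1) hmem))
      simp only [Nat.unpair_pair] at h5
      have := le_max_right N (m + 1)
      omega
    obtain ⟨t, h5, h6, h7⟩ := main_step hco hlow hc hα F (r := r2) (n := n)
      fun γ b => hfree _
    have hle : t ≤ q := h5.trans (h3.trans (h1.trans hr))
    -- `x` and the Cohen real agree
    obtain ⟨t1, h8, j, h9⟩ := mem_fex.1 h7 t le_rfl
    obtain ⟨t2, h10, m, h11⟩ := IsFun.total (down_IsFun _ _ hx _ (h8.trans hle)) n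
    have h12 : m = j := SameReal.eq (down_SameReal _ _ _ (hxc q hx) _
      (h10.trans (h8.trans hle))) h11 (down_meets _ _ h9.1 _ h10)
    rw [h12] at h11
    have h13 : t2 ∈ Agree x (X (co (α, false))) n :=
      agree_of h11 (down_meets _ _ h9.2 _ h10)
    obtain ⟨t3, h14, h15⟩ := mem_fimp.1 (h4 n hn) t2 (h10.trans (h8.trans h5)) h13
    obtain ⟨t4, h16, k, h17⟩ := mem_fex.1 h15 t3 le_rfl
    obtain ⟨t5, h18, hk, h19⟩ := mem_fex.1 h17 t4 le_rfl
    exact h6 k hk t5 (h18.trans (h16.trans (h14.trans (h10.trans h8)))) h19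
  · refine mem_fimp.2 fun q _ ht => ⟨q, le_rfl, ?_⟩
    choose c hc htc using fun l => exists_nm (t l)
    obtain ⟨α, hα⟩ := hM i (fun l => supp (c l)) fun l => supp_countable _
    refine mem_fex_of_mem (X (co (α, true))) (down_fand (down_IsFun _)
      (down_fall fun _ => down_fex _)) ⟨isFun_X _ _, fun l => ?_⟩
    let k : KK Low := ⟨(α, c l), hα l, hc l⟩
    refine mem_fex.2 fun r hr => ⟨r, le_rfl, {k}, mem_fex.2 fun r' hr' => ⟨r', le_rfl, 0,
      fun n _ => mem_fimp.2 fun u hu hag => ?_⟩⟩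
    obtain ⟨u1, h1, j, h2⟩ := mem_fex.1 hag u le_rfl
    have hle : u1 ≤ q := h1.trans (hu.trans (hr'.trans hr))
    obtain ⟨u2, h3, m, h4⟩ := IsFun.total (hc l u1) n
    have h5 : j = m := SameReal.eq (down_SameReal _ _ _ (htc l q (ht l)) _ (h3.trans hle))
      (down_meets _ _ h2.2 _ h3) h4
    rw [← h5] at h4
    refine ⟨u2, h3.trans h1, mem_fex_of_mem k (down_fex _) (mem_fex_of_mem
      (Finset.mem_singleton_self k) (down_meets _) (meets_of_mem ?_))⟩
    exact agree_of (down_meets _ _ h2.1 _ h3) h4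

end OneLevel

/-- different Cohen reals -/
theorem continuumGe {Ξ : Type} {e : Ξ → ι} (he : Function.Injective e) (p : Fn ι) :
    p ∈ ContinuumGe (Fn ι) Ξ := by
  classical
  refine mem_fex_of_mem (fun i => X (e i)) (down_fand (down_fall fun _ => down_IsFun _)
    (down_fall fun _ => down_fall fun _ => down_fall fun _ => down_fnot _))
    ⟨fun i => isFun_X _ _, fun i j hij q hq hsame => ?_⟩
  obtain ⟨n, hfree⟩ : ∃ n, ∀ i, Free q i n := by
    obtain ⟨m, hm⟩ := (q.g.image fun x => (Nat.unpair x.1.2).1).finite_toSet.bddAbove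
    refine ⟨m + 1, fun i k v hmem => ?_⟩
    have h5 := hm (Finset.mem_coe.2 (Finset.mem_image_of_mem
      (fun x : (ι × ℕ) × Bool => (Nat.unpair x.1.2).1) hmem))
    simp only [Nat.unpair_pair] at h5
    omega
  obtain ⟨t, h1, h2, h3⟩ := prescribe_one (hfree (e i)) 0
  have hfree' : Free t (e j) n := by
    intro k v hmem
    rcases h3 _ hmem with h | h
    · exact hfree _ k v h
    · exact hij (he h).symm
  obtain ⟨t', h4, h5, -⟩ := prescribe_one hfree' 1
  have := SameReal.eq (down_SameReal _ _ _ hsame _ (h4.trans h1))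
    (meets_of_mem (down_X _ _ _ _ h2 _ h4)) (meets_of_mem h5)
  exact absurd this (by norm_num)

end Pool.Agent.V11242.SN
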