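import Mathlib
import Pool.Agent.V11242.CL.Arith
import Pool.Agent.V11242.SN.Forced

/-!
# The Cohen model
-/

set_option autoImplicit false
set_option linter.unusedSectionVars false

namespace Pool.Agent.V11242.SN

open Cardinal Ordinal Pool.Agent.Helper669.Forcing Pool.Agent.H458R4.Cohen

/-- the function `o ↦ ℶ_o` -/
noncomputable def bf (o : Ordinal.{0}) : Ordinal.{0} := (ℶ_ o : Cardinal.{0}).ord

theorem normal_bf : Order.IsNormal bf := isNormal_ord.comp isNormal_beth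

/-- a fixed point -/
noncomputable def fp : Ordinal.{0} := deriv bf ω₁

theorem bf_fp : bf fp = fp := deriv_fp normal_bf _

theorem cof_fp : fp.cof = ℵ₁ := by
  have h := cof_map_of_isNormal (isNormal_deriv bf) (isSuccLimit_omega 1)
  exact h.trans cof_omega_one

/-- the size of the continuum -/
noncomputable def kap : Cardinal.{0} := ℶ_ fp

theorem ord_kap : kap.ord = fp := bf_fp

theorem cof_kap : kap.ord.cof = ℵ₁ := by rw [ord_kap, cof_fp]

theorem isSuccLimit_fp : Order.IsSuccLimit fp :=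
  (isNormal_deriv bf).map_isSuccLimit (isSuccLimit_omega 1)

theorem strong_kap : kap.IsStrongLimit := isStrongLimit_beth.2 isSuccLimit_fp.isSuccPrelimit

theorem aleph0_lt_kap : ℵ₀ < kap := CL.aleph0_lt_of_cof cof_kap

theorem kap_pow : kap ^ ℵ₀ = kap := CL.pow_aleph0_eq strong_kap cof_kap

/-- the index set -/
abbrev Xi : Type := kap.ord.ToType

theorem mk_Xi : #Xi = kap := mk_ord_toType _

/-- the ordinal with index `ξ` -/
noncomputable def oo (ξ : Xi) : Ordinal.{0} := ((ToType.mk (o := kap.ord)).symm ξ).1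

theorem oo_lt (ξ : Xi) : oo ξ < fp := by
  have h := ((ToType.mk (o := kap.ord)).symm ξ).2
  have h2 : oo ξ < kap.ord := h
  exact h2.trans_eq ord_kap

theorem oo_lt_oo {η ξ : Xi} (h : η < ξ) : oo η < oo ξ :=
  (ToType.mk (o := kap.ord)).symm.lt_iff_lt.2 h

/-- the value with index `ξ` -/
noncomputable def lam (ξ : Xi) : Cardinal.{0} := Order.succ (ℵ_ (oo ξ))

theorem isRegular_lam (ξ : Xi) : (lam ξ).IsRegular := isRegular_succ (aleph0_le_aleph _)

theorem lam_lt_kap (ξ : Xi) : lam ξ < kap := by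
  have h2 : ℵ_ (oo ξ) < kap := (aleph_le_beth _).trans_lt (beth_lt_beth.2 (oo_lt ξ))
  refine lt_of_le_of_lt ?_ (strong_kap.isStrongPrelimit h2)
  exact Order.succ_le_of_lt (cantor _)

theorem lam_lt_lam {η ξ : Xi} (h : η < ξ) : lam η < lam ξ :=
  Order.succ_lt_succ (aleph_lt_aleph.2 (oo_lt_oo h))

/-- the well-ordered set of size `lam ξ` -/
abbrev LL (ξ : Xi) : Type := (lam ξ).ord.ToType

theorem mk_LL (ξ : Xi) : #(LL ξ) = lam ξ := mk_ord_toType _

theorem exists_bound {ξ : Xi} {S : Set (LL ξ)} (hS : #S < lam ξ) : ∃ b, ∀ s ∈ S, s < b := by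
  by_contra hcon
  push Not at hcon
  have h1 : IsCofinal S := fun b => by
    obtain ⟨s, hs, hb⟩ := hcon b
    exact ⟨s, hs, hb⟩
  have h2 := Order.cof_le h1
  have h3 : Order.cof (LL ξ) = lam ξ := by
    rw [cof_toType, (isRegular_lam ξ).cof_ord]
  rw [h3] at h2
  exact absurd hS (not_lt.2 h2)

/-- the coordinates -/
abbrev II : Type := Σ ξ : Xi, LL ξ × Bool

theorem mk_II : #II = kap := by
  apply le_antisymm
  · rw [mk_sigma]
    refine (Cardinal.sum_le_sum _ (fun _ => kap) fun ξ => ?_).trans ?_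
    · rw [mk_prod, Cardinal.lift_id, Cardinal.lift_id, mk_LL]
      refine (mul_le_mul' (lam_lt_kap ξ).le ((mk_le_aleph0 (α := Bool)).trans
        aleph0_lt_kap.le)).trans ?_
      exact (mul_eq_self aleph0_lt_kap.le).le
    · rw [Cardinal.sum_const', mk_Xi]
      exact (mul_eq_self aleph0_lt_kap.le).le
  · rw [← mk_Xi]
    have hne : ∀ ξ : Xi, Nonempty (LL ξ) := fun ξ => by
      rw [← mk_ne_zero_iff, mk_LL]
      exact ((aleph0_pos.trans_le (isRegular_lam ξ).aleph0_le)).ne'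
    refine mk_le_of_injective (f := fun ξ : Xi => (⟨ξ, ((hne ξ).some, true)⟩ : II)) ?_
    intro ξ η h
    exact congrArg Sigma.fst h

/-- the coordinates which are known at stage `α` of level `ξ` -/
def Lo (ξ : Xi) (α : LL ξ) : Set II := {i | ∀ l b, i = ⟨ξ, (l, b)⟩ → l < α}

/-- the coordinates of level `ξ` -/
def co (ξ : Xi) (x : LL ξ × Bool) : II := ⟨ξ, x⟩

theorem co_injective (ξ : Xi) : Function.Injective (co ξ) := by
  intro x y h
  unfold co at h
  simpa using h

/-- the stages which occur in `S` -/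
def occ (ξ : Xi) (S : Set II) : Set (LL ξ) := {l | ∃ b, co ξ (l, b) ∈ S}

theorem subset_Lo {ξ : Xi} {S : Set II} {α : LL ξ} (h : ∀ l ∈ occ ξ S, l < α) : S ⊆ Lo ξ α := by
  intro i hi l b hib
  refine h l ⟨b, ?_⟩
  show (⟨ξ, (l, b)⟩ : II) ∈ S
  rw [← hib]
  exact hi

theorem countable_occ {ξ : Xi} {S : Set II} (hS : S.Countable) : (occ ξ S).Countable := by
  have h1 : occ ξ S ⊆ Prod.fst '' (co ξ ⁻¹' S) := by
    rintro l ⟨b, hb⟩
    exact ⟨(l, b), hb, rfl⟩
  exact ((hS.preimage_of_injOn (co_injective ξ).injOn).image _).mono h1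

theorem exists_forcing : ∃ (Ξ : Type) (_ : LinearOrder Ξ) (L K : Ξ → Type) (P : Type)
    (_ : Preorder P), Nonempty P ∧
    (∀ A : Set P, (∀ p ∈ A, ∀ q ∈ A, p ≠ q → ¬ ∃ r, r ≤ p ∧ r ≤ q) → A.Countable) ∧
    ∀ p : P, p ∈ ChiHolds P Ξ L K := by
  refine ⟨Xi, inferInstance, LL, fun ξ => KK (Lo ξ), Fn II, inferInstance, inferInstance, ?_,
    fun p => ⟨?_, ?_, fun ξ => ?_⟩⟩
  · intro A hA
    refine ccc A fun p hp q hq hc => ?_
    by_contra hne
    exact hA p hp q hq hne hc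
  · obtain ⟨e⟩ : Nonempty (Xi ≃ II) := Cardinal.eq.1 (by rw [mk_Xi, mk_II])
    have h1 := continuumLe (ι := II) (by rw [mk_II]; exact aleph0_lt_kap)
      (by rw [mk_II]; exact kap_pow) p
    refine mem_fex.2 fun q hq => ?_
    obtain ⟨r, hr, E, hE1, hE2⟩ := mem_fex.1 h1 q hq
    refine ⟨r, hr, fun y => E (e y), fun y => hE1 _, fun x => mem_fimp.2 fun s hs hx => ?_⟩
    obtain ⟨t, ht, h2⟩ := mem_fimp.1 (hE2 x) s hs hx
    obtain ⟨u, hu, i, hi⟩ := mem_fex.1 h2 t le_rfl
    refine ⟨u, hu.trans ht, mem_fex_of_mem (e.symm i) (down_SameReal _ _) ?_⟩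
    simpa using hi
  · obtain ⟨e⟩ : Nonempty (Xi ≃ II) := Cardinal.eq.1 (by rw [mk_Xi, mk_II])
    exact continuumGe e.injective p
  · refine level (co := co ξ) (Low := Lo ξ) (co_injective ξ) (fun α β b h => h β b rfl)
      (fun S hS => ?_) (fun η S hS => ?_) p
    · obtain ⟨α, hα⟩ := exists_bound (ξ := ξ) (S := occ ξ S) (lt_of_le_of_lt
        ((countable_occ hS).le_aleph0.trans (aleph0_le_aleph _)) (Order.lt_succ _))
      exact ⟨α, subset_Lo hα⟩
    · obtain ⟨α, hα⟩ := exists_bound (ξ := ξ) (S := ⋃ l, occ ξ (S l)) (by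
        refine lt_of_le_of_lt ?_ (lam_lt_lam η.2)
        refine (mk_iUnion_le_sum_mk).trans ((Cardinal.sum_le_sum _ (fun _ => ℵ₀) fun l =>
          (countable_occ (hS l)).le_aleph0).trans ?_)
        rw [Cardinal.sum_const', mk_LL]
        exact (mul_eq_left (isRegular_lam _).aleph0_le (isRegular_lam _).aleph0_le
          aleph0_pos.ne').le)
      exact ⟨α, fun l => subset_Lo fun m hm => hα m (Set.mem_iUnion.2 ⟨l, hm⟩)⟩

end Pool.Agent.V11242.SN
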